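import Mathlib
import Pool.Agent.W889.SR.Stm

/-!
# Types in incomparable cones (project SR, part L1NM)
-/

set_option autoImplicit false

namespace Pool.Agent.W872.SR.L1NM

open Pool.Agent.W889.SR

variable {T : Type} {α : Ordinal.{0}}

theorem blaws (r : T → T → Prop) : BLaws (Bs (α := α) r) := by
  refine ⟨?_, ?_, ?_⟩
  · intro b π
    cases b with
    | le i j => exact ⟨SB.le (π i) (π j), fun _ _ _ => Iff.rfl⟩
    | eq i j => exact ⟨SB.eq (π i) (π j), fun _ _ _ => Iff.rfl⟩
    | cb n e a β u => exact ⟨SB.cb n e a β (π ∘ u), fun _ _ _ => Iff.rfl⟩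
  · intro i j
    exact ⟨SB.le i j, fun _ _ _ => Iff.rfl⟩
  · intro i j
    exact ⟨SB.eq i j, fun _ _ _ => Iff.rfl⟩

theorem ext_val (v : ℕ) {k : ℕ} (z : Fin k → ℕ) : (ext v z) ∘ (fun i : Fin k => (i : ℕ)) = z := by
  funext i
  simp [W889.SR.ext]

open Classical in
theorem repl (hcomb : FVcomb) (hsplit : FVsplit) {r : T → T → Prop} {s : ℕ → ℕ → Prop}
    (hr : IsForest r) (hs : IsForest s) (p : Cond T α) (g : Fin p.n → ℕ) (hg : Rl r p s g)
    (i₀ : Fin p.n) (v : ℕ) (hv : g i₀ = v) :
    CB r (p.e i₀) p.β (fun i => if s v (g i) then p.e i else p.e i₀) s v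
      (fun i => if s v (g i) then g i else v) ∧
    ∀ z' : Fin p.n → ℕ, (∀ i, s v (z' i)) →
      CB r (p.e i₀) p.β (fun i => if s v (g i) then p.e i else p.e i₀) s v z' →
      Rl r p s (fun i => if s v (g i) then z' i else g i) ∧ ∀ i, p.e i = p.e i₀ → z' i = v := by
  subst hv
  have hsp := hsplit T ℕ r s p.β (Fin p.n) p.e g i₀ hg
  have hin : ∀ i, s (g i₀) (g i) → r (p.e i₀) (p.e i) := fun i h =>
    ((BF.sameQf hg).1 i₀ i).2 h
  have hin' : ∀ i, r (p.e i₀) (p.e i) → s (g i₀) (g i) := fun i h =>
    ((BF.sameQf hg).1 i₀ i).1 h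
  constructor
  · have h := hsp.1 (Fin p.n) (fun i => if s (g i₀) (g i) then i else i₀) (fun j => by
      by_cases hj : s (g i₀) (g j)
      · simp only [hj, if_true]
        exact hin j hj
      · simp only [hj, if_false]
        exact hr.refl _)
    have e1 : (p.e ∘ fun i => if s (g i₀) (g i) then i else i₀) =
        fun i => if s (g i₀) (g i) then p.e i else p.e i₀ := by
      funext i
      by_cases hj : s (g i₀) (g i)
      · simp [hj]
      · simp [hj]
    have e2 : (g ∘ fun i => if s (g i₀) (g i) then i else i₀) =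
        fun i => if s (g i₀) (g i) then g i else g i₀ := by
      funext i
      by_cases hj : s (g i₀) (g i)
      · simp [hj]
      · simp [hj]
    rw [e1, e2] at h
    exact h
  · intro z' hz' hCB
    constructor
    · have hout := hsp.2 (Fin p.n) (fun i => if s (g i₀) (g i) then i₀ else i) (fun j => by
        by_cases hj : s (g i₀) (g j)
        · simp [hj]
        · simp only [hj, if_false]
          intro h
          exact (hj (hin' j h)).elim)
      have h := hcomb T ℕ r s hr hs p.β (p.e i₀) (g i₀) (Fin p.n) (Fin p.n)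
        (fun i => if s (g i₀) (g i) then p.e i else p.e i₀) z'
        (p.e ∘ fun i => if s (g i₀) (g i) then i₀ else i)
        (g ∘ fun i => if s (g i₀) (g i) then i₀ else i)
        (fun i => by
          by_cases hj : s (g i₀) (g i)
          · simp only [hj, if_true]
            exact hin i hj
          · simp only [hj, if_false]
            exact hr.refl _) hz'
        (fun j => by
          by_cases hj : s (g i₀) (g j)
          · simp [hj]
          · simp only [Function.comp, hj, if_false]
            intro h
            exact (hj (hin' j h)).elim)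
        (fun j => by
          by_cases hj : s (g i₀) (g j)
          · simp [hj]
          · simp only [Function.comp, hj, if_false]
            intro h
            exact h.elim)
        hCB hout
      have h2 := h.reindex (fun i : Fin p.n =>
        if s (g i₀) (g i) then (Sum.inl i : Fin p.n ⊕ Fin p.n) else Sum.inr i)
      have e1 : (Sum.elim (fun i => if s (g i₀) (g i) then p.e i else p.e i₀)
          (p.e ∘ fun i => if s (g i₀) (g i) then i₀ else i)) ∘ (fun i : Fin p.n =>
          if s (g i₀) (g i) then (Sum.inl i : Fin p.n ⊕ Fin p.n) else Sum.inr i) = p.e := by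
        funext i
        by_cases hj : s (g i₀) (g i)
        · simp [hj]
        · simp [hj]
      have e2 : (Sum.elim z'
          (g ∘ fun i => if s (g i₀) (g i) then i₀ else i)) ∘ (fun i : Fin p.n =>
          if s (g i₀) (g i) then (Sum.inl i : Fin p.n ⊕ Fin p.n) else Sum.inr i) =
          fun i => if s (g i₀) (g i) then z' i else g i := by
        funext i
        by_cases hj : s (g i₀) (g i)
        · simp [hj]
        · simp [hj]
      rw [e1, e2] at h2
      exact h2
    · intro i hi
      have h := ((BF.sameQf hCB).2 none (some i)).1 (by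
        by_cases hj : s (g i₀) (g i)
        · simp [hj, hi]
        · simp [hj])
      exact h.symm

theorem l1nm : L1NM_stmt := by
  classical
  intro hcomb hsplit hQ T α r s hr hs hT1 hT2
  have hB : BLaws (Bs (α := α) r) := blaws r
  constructor
  · intro a b hab hba k c d hc hd hT
    obtain ⟨p, u, g, hF, hR, hgu⟩ := (hT1 k).2
      (Sum.elim (fun x : Bool => bif x then b else a) (Sum.elim c d)) hT
    have g0 : g (u (Sum.inl false)) = a := congrFun hgu (Sum.inl false)
    have g1 : g (u (Sum.inl true)) = b := congrFun hgu (Sum.inl true)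
    have gc : ∀ j, g (u (Sum.inr (Sum.inl j))) = c j := fun j =>
      congrFun hgu (Sum.inr (Sum.inl j))
    have gd : ∀ j, g (u (Sum.inr (Sum.inr j))) = d j := fun j =>
      congrFun hgu (Sum.inr (Sum.inr j))
    obtain ⟨hσ1, hσ2⟩ := repl hcomb hsplit hr hs p g hR (u (Sum.inl false)) a g0
    obtain ⟨τ, hτ⟩ := hQ.proj (SB T α) (Bs r) hB k p.n (fun j => u (Sum.inr (Sum.inl j)))
      (Q.base (SB.cb p.n (p.e (u (Sum.inl false)))
        (fun i => if s a (g i) then p.e i else p.e (u (Sum.inl false))) ⟨p.β, p.lt⟩
        (fun i => (i : ℕ))))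
    refine ⟨τ, ?_, ?_⟩
    · rw [hτ s a (hs.refl a) c hc]
      refine ⟨fun i => if s a (g i) then g i else a, ?_, ?_, ?_⟩
      · intro i
        by_cases hi : s a (g i)
        · simp only [hi, if_true]
        · simp only [hi, if_false]
          exact hs.refl a
      · show CB r _ _ _ s a ((ext a _) ∘ (fun i : Fin p.n => (i : ℕ)))
        rw [ext_val]
        exact hσ1
      · funext j
        simp only [Function.comp, gc]
        rw [if_pos (hc j)]
    · intro z hz hzτ
      rw [hτ s a (hs.refl a) z hz] at hzτ
      obtain ⟨z', hz', hz'σ, hz'u⟩ := hzτ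
      have hz'σ2 : CB r (p.e (u (Sum.inl false))) p.β
          (fun i => if s a (g i) then p.e i else p.e (u (Sum.inl false))) s a z' := by
        have h : CB r (p.e (u (Sum.inl false))) p.β
          (fun i => if s a (g i) then p.e i else p.e (u (Sum.inl false))) s a
            ((ext a z') ∘ (fun i : Fin p.n => (i : ℕ))) := hz'σ
        rwa [ext_val] at h
      obtain ⟨hR', hzi⟩ := hσ2 z' hz' hz'σ2
      have hP := (hT1 k).1 p u hF _ hR'
      have k0 : (if s a (g (u (Sum.inl false))) then z' (u (Sum.inl false))
          else g (u (Sum.inl false))) = a := by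
        rw [g0, if_pos (hs.refl a)]
        exact hzi _ rfl
      have k1 : (if s a (g (u (Sum.inl true))) then z' (u (Sum.inl true))
          else g (u (Sum.inl true))) = b := by
        rw [g1, if_neg hab]
      have kc : (fun j => if s a (g (u (Sum.inr (Sum.inl j)))) then z' (u (Sum.inr (Sum.inl j)))
          else g (u (Sum.inr (Sum.inl j)))) = z := by
        funext j
        rw [gc, if_pos (hc j)]
        exact congrFun hz'u j
      have kd : (fun j => if s a (g (u (Sum.inr (Sum.inr j)))) then z' (u (Sum.inr (Sum.inr j)))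
          else g (u (Sum.inr (Sum.inr j)))) = d := by
        funext j
        rw [gd, if_neg]
        intro h
        rcases hs.chain (d j) a b h (hd j) with h' | h'
        · exact hab h'
        · exact hba h'
      have hP2 : SameTp (Bs (α := α) r) s a z b d := by
        have h : SameTp (Bs (α := α) r) s
          (if s a (g (u (Sum.inl false))) then z' (u (Sum.inl false))
            else g (u (Sum.inl false)))
          (fun j => if s a (g (u (Sum.inr (Sum.inl j)))) then z' (u (Sum.inr (Sum.inl j)))
            else g (u (Sum.inr (Sum.inl j))))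
          (if s a (g (u (Sum.inl true))) then z' (u (Sum.inl true))
            else g (u (Sum.inl true)))
          (fun j => if s a (g (u (Sum.inr (Sum.inr j)))) then z' (u (Sum.inr (Sum.inr j)))
            else g (u (Sum.inr (Sum.inr j)))) := hP
        rwa [k0, k1, kc, kd] at h
      intro q
      exact (hP2 q).trans (hT q).symm
  · intro a b hab hba hth hat k d hd
    by_contra hni
    obtain ⟨p, u, g, hF, hR, hgu⟩ := (hT2 k).2
      (Sum.elim (fun x : Bool => bif x then b else a) d) ⟨hth, hat, hni⟩
    have g1 : g (u (Sum.inl true)) = b := congrFun hgu (Sum.inl true)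
    have gd : ∀ j, g (u (Sum.inr j)) = d j := fun j => congrFun hgu (Sum.inr j)
    obtain ⟨hσ1, hσ2⟩ := repl hcomb hsplit hr hs p g hR (u (Sum.inl true)) b g1
    set σ : Q (SB T α) := (Q.base (SB.cb p.n (p.e (u (Sum.inl true)))
        (fun i => if s b (g i) then p.e i else p.e (u (Sum.inl true))) ⟨p.β, p.lt⟩
        (fun i => (i : ℕ)))) with hσdef
    have hσsat : ∀ (v : ℕ) (z : Fin p.n → ℕ), σ.sat (Bs r) s v (ext v z) ↔
        CB r (p.e (u (Sum.inl true))) p.β
          (fun i => if s b (g i) then p.e i else p.e (u (Sum.inl true))) s v z := by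
      intro v z
      have h : σ.sat (Bs r) s v (ext v z) ↔ CB r (p.e (u (Sum.inl true))) p.β
          (fun i => if s b (g i) then p.e i else p.e (u (Sum.inl true))) s v
            ((ext v z) ∘ (fun i : Fin p.n => (i : ℕ))) := Iff.rfl
      rwa [ext_val] at h
    have hth' : SameTp (Bs (α := α) r) s (k := 0) b Fin.elim0 a Fin.elim0 :=
      fun q => (hth q).symm
    obtain ⟨c', hc', hc'σ⟩ := hQ.tr (SB T α) (Bs r) hB s b a (hs.refl b) (hs.refl a) hth' p.n σ
      ⟨fun i => if s b (g i) then g i else b, fun i => by
        by_cases hi : s b (g i)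
        · simp only [hi, if_true]
        · simp only [hi, if_false]
          exact hs.refl b, (hσsat b _).2 hσ1⟩
    obtain ⟨τ, hτ1, hτ2⟩ := hat p.n c' hc'
    obtain ⟨d', hd', hd'σ, hd'τ⟩ := hQ.tr (SB T α) (Bs r) hB s a b (hs.refl a) (hs.refl b) hth
      p.n (Q.and σ τ) ⟨c', hc', hc'σ, hτ1⟩
    obtain ⟨-, hiso⟩ := hQ.iso (SB T α) (Bs r) hB s a b (hs.refl a) (hs.refl b) hth p.n c' d' τ
      hc' hd' hτ1 hτ2 hd'τ
    have hI : Isol (Bs (α := α) r) s b d' := ⟨τ, hd'τ, hiso⟩
    have hI2 := hQ.sub (SB T α) (Bs r) hB s b (hs.refl b) p.n k (fun j => u (Sum.inr j)) d' hd'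
      hI
    obtain ⟨hR', hzi⟩ := hσ2 d' hd' ((hσsat b d').1 hd'σ)
    have hP := ((hT2 k).1 p u hF _ hR').2.2
    have k1 : (if s b (g (u (Sum.inl true))) then d' (u (Sum.inl true))
        else g (u (Sum.inl true))) = b := by
      rw [g1, if_pos (hs.refl b)]
      exact hzi _ rfl
    have kd : (fun j => if s b (g (u (Sum.inr j))) then d' (u (Sum.inr j))
        else g (u (Sum.inr j))) = d' ∘ (fun j => u (Sum.inr j)) := by
      funext j
      rw [gd, if_pos (hd j)]
      rfl
    have hP2 : ¬ Isol (Bs (α := α) r) s
        (if s b (g (u (Sum.inl true))) then d' (u (Sum.inl true)) else g (u (Sum.inl true)))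
        (fun j => if s b (g (u (Sum.inr j))) then d' (u (Sum.inr j))
          else g (u (Sum.inr j))) := hP
    rw [k1, kd] at hP2
    exact hP2 hI2

end Pool.Agent.W872.SR.L1NM
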